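import Mathlib
import Pool.Agent.Lib.MP_155ab0_nt.Count
import Pool.Agent.Lib.MP_155ab0_nt.Bound

namespace Pool.Agent.Results.MP_155ab0_nt.Full

open Finset Filter Topology MP155

lemma tendsto_bound : Tendsto (fun n : ℕ => 408 / √(Real.log (n : ℝ))) atTop (𝓝 0) := by
  apply Filter.Tendsto.div_atTop tendsto_const_nhds
  exact Real.tendsto_sqrt_atTop.comp (Real.tendsto_log_atTop.comp tendsto_natCast_atTop_atTop)

lemma ratio_le {n : ℕ} (hn : 2 ≤ n) : Real.log (M n) / √n ≤ 408 / √(Real.log (n : ℝ)) := by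
  have hn' : (2 : ℝ) ≤ n := by exact_mod_cast hn
  have hlog : 0 < Real.log n := Real.log_pos (by linarith)
  have h := log_M_le_sharp hn
  rw [Real.sqrt_div (Nat.cast_nonneg n)] at h
  have hs : 0 < √(n : ℝ) := Real.sqrt_pos.mpr (by linarith)
  have hl : 0 < √(Real.log (n : ℝ)) := Real.sqrt_pos.mpr hlog
  rw [div_le_iff₀ hs]
  calc Real.log (M n) ≤ 408 * (√n / √(Real.log n)) := h
    _ = 408 / √(Real.log (n : ℝ)) * √n := by ring

lemma tendsto_ratio : Tendsto (fun n : ℕ => Real.log (M n) / √n) atTop (𝓝 0) := by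
  apply squeeze_zero' (g := fun n : ℕ => 408 / √(Real.log (n : ℝ)))
  · filter_upwards with n
    exact div_nonneg (Real.log_natCast_nonneg _) (Real.sqrt_nonneg _)
  · filter_upwards [eventually_ge_atTop 2] with n hn
    exact ratio_le hn
  · exact tendsto_bound

/-- The logarithm of the number `M n` of distinct multinomial coefficients with upper entry `n` is
`O(√(n / log n))`; so `log (M n) / √n` tends to 0 and no positive limit exists. -/
theorem result :
    (∀ n : ℕ, (multinomialValues n).Finite) ∧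
    (∀ n : ℕ, 2 ≤ n → Real.log (M n) ≤ 408 * √(n / Real.log n)) ∧
    Tendsto (fun n : ℕ => Real.log (M n) / √n) atTop (𝓝 0) ∧
    (¬ ∃ C : ℝ, 0 < C ∧ Tendsto (fun n : ℕ => Real.log (M n) / √n) atTop (𝓝 C)) := by
  refine ⟨multinomialValues_finite, fun n hn => log_M_le_sharp hn, tendsto_ratio, ?_⟩
  rintro ⟨C, hC, h⟩
  have := tendsto_nhds_unique h tendsto_ratio
  linarith

end Pool.Agent.Results.MP_155ab0_nt.Full
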